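import Mathlib
import Pool.Agent.X317.GD.QG5

/-!
# MP_70614a_al: the global dimension is not attained by a Frattini pair
-/

set_option autoImplicit false
set_option linter.all false

namespace Pool.Agent.Results.MP_70614a_al.NotFrattini

open Pool.Agent.X317.GD CategoryTheory CategoryTheory.Abelian

universe v u

/-- The global dimension of an abelian category: the supremum of the projective dimensions of its
objects. -/
noncomputable def gldim (C : Type u) [Category.{v} C] [Abelian C] : WithBot ℕ∞ :=
  ⨆ X : C, projectiveDimension X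

noncomputable instance decSub (G : Type) [Group G] [Finite G] : DecidableEq (Subgroup G) :=
  Classical.decEq _

noncomputable instance finSub (G : Type) [Group G] [Finite G] : Fintype (Subgroup G) :=
  Fintype.ofFinite _

open Classical in
noncomputable instance locSub (G : Type) [Group G] [Finite G] : LocallyFiniteOrder (Subgroup G) :=
  Fintype.toLocallyFiniteOrder

/-- The rational incidence algebra of the lattice of subgroups. -/
abbrev IAS (G : Type) [Group G] [Finite G] : Type := IncidenceAlgebra ℚ (Subgroup G)

/-- The simple module concentrated at `H`: the space `ℚ` on which `r` acts as `r H H`. -/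
noncomputable def SS {G : Type} [Group G] [Finite G] (H : Subgroup G) : ModuleCat.{0} (IAS G) :=
  ModuleCat.of (IAS G) (Smp H)

/-- There is a finite group `G` (of order `2904`) such that the rational incidence algebra of the
lattice of its subgroups has global dimension at least `4`, indeed `Ext⁴(S_G, S_K) ≠ 0` for a
subgroup `K` of order two, while `Ext^n(S_H, S_(Φ H)) = 0` for all subgroups `H` and all `n ≥ 4`. -/
theorem result : ∃ (G : Type) (_ : Group G) (_ : Finite G), Nat.card G = 2904 ∧
    4 ≤ gldim (ModuleCat.{0} (IAS G)) ∧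
    (∃ K : Subgroup G, Nat.card K = 2 ∧ Nontrivial (Ext (SS (⊤ : Subgroup G)) (SS K) 4)) ∧
    (∀ (H : Subgroup G) (n : ℕ), Nontrivial (Ext (SS H) (SS (Fr H)) n) → n ≤ 3) ∧
    gldim (ModuleCat.{0} (IAS G)) ≠
      sSup {x : WithBot ℕ∞ | ∃ (n : ℕ) (H : Subgroup G), x = n ∧
        Nontrivial (Ext (SS H) (SS (Fr H)) n)} := by
  have hN : Nontrivial (Ext (SS (⊤ : Subgroup GG)) (SS (Z2.map sg)) 4) := by
    by_contra h
    exact step1 (not_nontrivial_iff_subsingleton.1 h)
  have hg : 4 ≤ gldim (ModuleCat.{0} (IAS GG)) := by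
    refine le_trans ?_ (le_iSup (fun X : ModuleCat.{0} (IAS GG) => projectiveDimension X)
      (SS (⊤ : Subgroup GG)))
    refine (projectiveDimension_ge_iff _ 4).2 ?_
    intro h
    have h1 := HasProjectiveDimensionLT.subsingleton (SS (⊤ : Subgroup GG)) 4 4 le_rfl
      (SS (Z2.map sg))
    exact not_nontrivial_iff_subsingleton.2 h1 hN
  have hF : ∀ (H : Subgroup GG) (n : ℕ), Nontrivial (Ext (SS H) (SS (Fr H)) n) → n ≤ 3 := by
    intro H n h
    by_contra hc
    push Not at hc
    exact not_nontrivial_iff_subsingleton.2 (main_van H n hc (Smp H) (Smp_Sp H)) h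
  refine ⟨GG, inferInstance, inferInstance, card_GG, hg, ⟨Z2.map sg, ?_, hN⟩, hF, ?_⟩
  · rw [Subgroup.card_map_of_injective sg_inj, card_Z2]
  · intro h
    have h3 : sSup {x : WithBot ℕ∞ | ∃ (n : ℕ) (H : Subgroup GG), x = n ∧
        Nontrivial (Ext (SS H) (SS (Fr H)) n)} ≤ (3 : ℕ) := by
      apply sSup_le
      rintro x ⟨n, H, rfl, hn⟩
      have h4 := hF H n hn
      exact_mod_cast h4
    rw [← h] at h3
    have h4 : (4 : WithBot ℕ∞) ≤ (3 : ℕ) := hg.trans h3
    exact absurd h4 (by decide)

end Pool.Agent.Results.MP_70614a_al.NotFrattini
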